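import Pool.Agent.H26.Big.Concl
import Pool.Graph.R_seed8.Results.MP_bf81c2_nt.LinnikExponent

/-!
# A lower bound in Malle's conjecture for `S_n` and the wreath products `S_k ≀ H`, in windows

Let `K` be a number field, `k ≥ 3`, and let `H ≤ S_h` be the Galois group of some extension `F/K` of
degree `h` (acting on the embeddings). Let `G = S_k ≀ H ≤ S_n`, `n = h k`, in the imprimitive action; for
`h = 1` this is `S_n`. These are the groups with `a(G) = 1` and blocks of size at least `3`. Let
`e(k) = 1/2 + min (1/2, (k-1) / (k (k-1) - ⌊(k+1)²/4⌋))`, so `e(3) = e(4) = 1`, `e(6) = 7/9`, and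
`e(k) = 1/2 + (4 + o(1)) / (3k)`. Let `s < e(k)`. We show: there is `δ > 0` such that for all
large `X` there is `Y` between `X ^ δ` and `X` with `N_{n,K}(Y; G) ≥ Y ^ s`. In particular
`N_{n,K}(X; G)` is not `O(X ^ s)`.

The proof for `k ≥ 4` (elementary). Let `d = [F : ℚ]`, `T` large, and consider the monic polynomials
`f` of degree `k` over the integers of `F` with the coefficients of `f - (x^k - T^(2k))` of size
`≤ c T^(2(k-i))` at `x^i` (so all roots have size about `T²`), with congruence conditions such that they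
are irreducible with the required group, and with a given double root modulo a large number:
`m² ∣ f(r)` and `m ∣ f'(r)`, where `m` is squarefree of size `P` and `r` runs over the numbers of size `P`.

* Let `e = ⌊(k-1)/2⌋` and consider the lattice of the polynomials `g` of degree `≤ e` with `m ∣ g(r)`,
  scaled by `T^(k-2i)` at `x^i`. For `P = T^(κ-ε)`, `κ = ⌊(k+1)²/4⌋`, most pairs `(m,r)` are good: this
  lattice has a basis of size `≤ c` (otherwise it has a very short vector, and these are rare since `m`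
  divides the nonzero number `g(r)`). Products of two such `g` are double at `r` modulo `m`, and reducing
  modulo these products shows that for a good pair the number of `f` is at least
  `c T^(d k (k+1)) / P^(3d)`. Every `f` occurs for at most `T^ε` pairs, as `m` divides its discriminant.
* If `θ` is a root of `f`, `(x - r) q = f - f(r)`, then `ψ = q(θ)/m` is integral. For a good pair every
  element of `O_F[θ] + O_F ψ` of size `O(T²)` is in `O_F + O_F θ`: multiplying it by a `g` as above gives an
  element of `O_F[θ]` whose top coordinate is too small, hence zero. By the pigeonhole principle `L = F(θ)`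
  has at most `O(T^(2d) T^(d k (k-1)) P^(-d) |d_L|^(-1/2))` integers of size `O(T²)`.
* Counting the `f` in two ways gives `∑ |d_L|^(-1/2) ≥ T^(2d(k-1) - ε)`, the sum over the `L` with
  `|d_L| ≤ X = C T^(2d(k(k-1) - κ + ε))`. A dyadic decomposition gives the result.

For `k = 3` polynomials with leading coefficient of the size of the other coefficients are used instead.
-/

set_option autoImplicit false

open Filter

namespace Pool.Agent.Results.MP_af4c59_nt.WreathWindow

/-- The exponent `e(k) = 1/2 + min (1/2, (k-1) / (k (k-1) - ⌊(k+1)²/4⌋))`. -/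
noncomputable def expo (k : ℕ) : ℝ :=
  1 / 2 + min (1 / 2) (((k : ℝ) - 1) / ((k : ℝ) * ((k : ℝ) - 1) - (((k + 1) ^ 2 / 4 : ℕ) : ℝ)))

/-- The fields `L` between `K` and its algebraic closure, of degree `n` over `K`, whose Galois group,
acting on the embeddings, is `G` (up to numbering), and whose relative discriminant has norm at most
`X` (that is, `|d_L| ≤ X |d_K| ^ n`). -/
def Ext (K : Type) [Field K] [NumberField K] (n : ℕ) (G : Subgroup (Equiv.Perm (Fin n)))
    (X : ℝ) : Set (IntermediateField K (AlgebraicClosure K)) :=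
  {L | Module.finrank K L = n ∧
    (∃ e : (L →ₐ[K] AlgebraicClosure K) ≃ Fin n, ∀ π : Equiv.Perm (Fin n),
      π ∈ G ↔ ∃ σ : AlgebraicClosure K ≃ₐ[K] AlgebraicClosure K,
        ∀ φ : L →ₐ[K] AlgebraicClosure K, e (σ.toAlgHom.comp φ) = π (e φ)) ∧
    ∃ h : NumberField L,
      ((|@NumberField.discr L _ h| : ℤ) : ℝ) ≤ X * ((|NumberField.discr K| : ℤ) : ℝ) ^ n}

/-- `G` is the Galois group of an extension of `K` of degree `n`. -/
def Occurs (K : Type) [Field K] [NumberField K] (n : ℕ) (G : Subgroup (Equiv.Perm (Fin n))) :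
    Prop :=
  ∃ X : ℝ, (Ext K n G X).Nonempty

/-- `G ≤ S_n` is, up to a bijection `f` of `{1, ..., n}` with `{1, ..., h} × {1, ..., k}`, the wreath
product `S_k ≀ H`, `H ≤ S_h`: it consists of all permutations `π` for which there is `η ∈ H` such that
`π` maps the block `{x} × {1, ..., k}` to the block `{η x} × {1, ..., k}`, for all `x`. -/
def IsSymWreath (k : ℕ) {h n : ℕ} (H : Subgroup (Equiv.Perm (Fin h)))
    (G : Subgroup (Equiv.Perm (Fin n))) : Prop :=
  ∃ f : Fin n ≃ Fin h × Fin k, ∀ π : Equiv.Perm (Fin n),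
    π ∈ G ↔ ∃ η ∈ H, ∀ i, (f (π i)).1 = η (f i).1

theorem ext_eq (K : Type) [Field K] [NumberField K] (n : ℕ) (G : Subgroup (Equiv.Perm (Fin n)))
    (X : ℝ) : Ext K n G X = Pool.Agent.Helper313WR.GFld K (AlgebraicClosure K) n G
      (X * ((|NumberField.discr K| : ℤ) : ℝ) ^ n) := rfl

theorem one_le_discr_pow (K : Type) [Field K] [NumberField K] (n : ℕ) :
    (1 : ℝ) ≤ ((|NumberField.discr K| : ℤ) : ℝ) ^ n := by
  refine one_le_pow₀ ?_
  have : (1 : ℤ) ≤ |NumberField.discr K| := Int.one_le_abs (NumberField.discr_ne_zero K)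
  exact_mod_cast this

theorem occurs_iff (K : Type) [Field K] [NumberField K] (n : ℕ)
    (G : Subgroup (Equiv.Perm (Fin n))) : Occurs K n G ↔
      ∃ Y, (Pool.Agent.Helper313WR.GFld K (AlgebraicClosure K) n G Y).Nonempty := by
  constructor
  · rintro ⟨X, h⟩
    exact ⟨_, h⟩
  · rintro ⟨Y, h⟩
    refine ⟨Y / ((|NumberField.discr K| : ℤ) : ℝ) ^ n, ?_⟩
    rw [ext_eq, div_mul_cancel₀ _ (by linarith [one_le_discr_pow K n])]
    exact h

/-- the polynomial upper bound for the number of all extensions of degree `n` -/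
theorem upper (K : Type) [Field K] [NumberField K] (n : ℕ) (hn : 2 ≤ n) :
    ∃ C A : ℝ, ∀ X : ℝ, 1 ≤ X →
      ((Pool.Agent.Helper313LB.Fld K (AlgebraicClosure K) n X).ncard : ℝ) ≤ C * X ^ A := by
  obtain ⟨e, -, h⟩ := Pool.Agent.Results.MP_bf81c2_nt.LinnikExponent.result
  obtain ⟨C, hC⟩ := h n hn (Module.finrank ℚ K)
  exact ⟨C, e n, fun X hX => (hC K rfl X hX).2⟩

/-- Let `K` be a number field, `k ≥ 3`, and let `H ≤ S_h`, `h ≥ 1`, be a Galois group over `K`. Let
`G = S_k ≀ H` (for `h = 1` this is `S_k`) and `s < e(k)`. Then there is `δ > 0` such that for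
all large `X` there is `Y` with `X ^ δ ≤ Y ≤ X` such that the number of the `G`-extensions of `K` whose
relative discriminant has norm at most `Y` is at least `Y ^ s`. -/
theorem result :
    ∀ (K : Type) [Field K] [NumberField K] (k h n : ℕ), 3 ≤ k → 1 ≤ h →
      ∀ (H : Subgroup (Equiv.Perm (Fin h))) (G : Subgroup (Equiv.Perm (Fin n))),
      Occurs K h H → IsSymWreath k H G →
      ∀ s : ℝ, s < expo k →
      ∃ δ : ℝ, 0 < δ ∧ ∀ᶠ X : ℝ in atTop, ∃ Y : ℝ, X ^ δ ≤ Y ∧ Y ≤ X ∧
        (Ext K n G Y).Finite ∧ Y ^ s ≤ ((Ext K n G Y).ncard : ℝ) := by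
  intro K _ _ k h n hk hh H G hH hG s hs
  obtain ⟨f, hf⟩ := hG
  have hn : n = h * k := by
    have := Fintype.card_congr f
    rwa [Fintype.card_prod, Fintype.card_fin, Fintype.card_fin, Fintype.card_fin] at this
  have hn2 : 2 ≤ n := by
    rw [hn]
    nlinarith
  obtain ⟨C, A, hup⟩ := upper K n hn2
  obtain ⟨δ, hδ, h1⟩ := Pool.Agent.H26.Big.G_window_rel hk H ((occurs_iff K h H).1 hH) G f hf hup hs
    (one_le_discr_pow K n)
  refine ⟨δ, hδ, ?_⟩
  filter_upwards [h1] with X ⟨Y, h2, h3, h4⟩
  exact ⟨Y, h2, h3, Pool.Agent.Helper313WR.finite_GFld K (AlgebraicClosure K) G _, h4⟩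

end Pool.Agent.Results.MP_af4c59_nt.WreathWindow
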